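import Pool.Agent.H525.EX.Stm3

/-!
# Project EX (helper525): the sum over the divisors of `4 n + 1` with Jacobi symbols
-/

set_option autoImplicit false

namespace Pool.Agent.H177.EX

open Pool.Agent.H525.EX

theorem neg_pow_tri (s : ℕ) :
    ((-1 : ℤ)) ^ (s * (s + 1) / 2) =
      if (2 * s + 1) % 8 = 1 ∨ (2 * s + 1) % 8 = 7 then 1 else -1 := by
  have h : s % 4 = 0 ∨ s % 4 = 1 ∨ s % 4 = 2 ∨ s % 4 = 3 := by omega
  have hs : s = 4 * (s / 4) + s % 4 := by omega
  set t := s / 4 with ht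
  rcases h with h | h | h | h
  · rw [h, add_zero] at hs
    have h1 : s * (s + 1) / 2 = 2 * (t * (4 * t + 1)) := by
      rw [hs]
      have : 4 * t * (4 * t + 1) = 2 * (2 * (t * (4 * t + 1))) := by ring
      rw [this]
      exact Nat.mul_div_cancel_left _ (by norm_num)
    rw [h1, pow_mul, if_pos (by omega)]
    norm_num
  · rw [h] at hs
    have h1 : s * (s + 1) / 2 = 2 * (4 * t ^ 2 + 3 * t) + 1 := by
      rw [hs]
      have : (4 * t + 1) * (4 * t + 1 + 1) = 2 * (2 * (4 * t ^ 2 + 3 * t) + 1) := by ring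
      rw [this]
      exact Nat.mul_div_cancel_left _ (by norm_num)
    rw [h1, pow_succ, pow_mul, if_neg (by omega)]
    norm_num
  · rw [h] at hs
    have h1 : s * (s + 1) / 2 = 2 * (4 * t ^ 2 + 5 * t + 1) + 1 := by
      rw [hs]
      have : (4 * t + 2) * (4 * t + 2 + 1) = 2 * (2 * (4 * t ^ 2 + 5 * t + 1) + 1) := by ring
      rw [this]
      exact Nat.mul_div_cancel_left _ (by norm_num)
    rw [h1, pow_succ, pow_mul, if_neg (by omega)]
    norm_num
  · rw [h] at hs
    have h1 : s * (s + 1) / 2 = 2 * (4 * t ^ 2 + 7 * t + 3) := by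
      rw [hs]
      have : (4 * t + 3) * (4 * t + 3 + 1) = 2 * (2 * (4 * t ^ 2 + 7 * t + 3)) := by ring
      rw [this]
      exact Nat.mul_div_cancel_left _ (by norm_num)
    rw [h1, pow_mul, if_pos (by omega)]
    norm_num

theorem J_odd (κ s : ℕ) :
    jacobiSym (-(2 : ℤ) ^ κ) (2 * s + 1) = (-1) ^ s * ((-1) ^ κ) ^ (s * (s + 1) / 2) := by
  have hodd : Odd (2 * s + 1) := ⟨s, rfl⟩
  rw [jacobiSym.neg _ hodd, jacobiSym.pow_left, jacobiSym.at_two hodd,
    ZMod.χ₄_eq_neg_one_pow (by omega)]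
  have h1 : (2 * s + 1) / 2 = s := by omega
  rw [h1, ZMod.χ₈_nat_eq_if_mod_eight, if_neg (by omega), ← neg_pow_tri, ← pow_mul, ← pow_mul,
    mul_comm κ]

theorem J_real (κ s : ℕ) :
    ((jacobiSym (-(2 : ℤ) ^ κ) (2 * s + 1) : ℤ) : ℝ) =
      (-1) ^ s * ((-1) ^ κ) ^ (s * (s + 1) / 2) := by
  rw [J_odd]
  push_cast
  rfl

/-- the symbol at the complementary divisor -/
theorem J_real' (κ s m : ℕ) :
    ((jacobiSym (-(2 : ℤ) ^ κ) (2 * s + 1 + 4 * m) : ℤ) : ℝ) =
      (-1) ^ s * ((-1) ^ κ) ^ (s * (s + 1) / 2) * ((-1) ^ κ) ^ m := by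
  have h1 : 2 * s + 1 + 4 * m = 2 * (s + 2 * m) + 1 := by ring
  rw [h1, J_real]
  have h2 : (s + 2 * m) * (s + 2 * m + 1) / 2 = s * (s + 1) / 2 + m + 2 * (s * m + m ^ 2) := by
    have h3 : s * (s + 1) = 2 * (s * (s + 1) / 2) :=
      (Nat.mul_div_cancel' (Nat.even_mul_succ_self s).two_dvd).symm
    have h4 : (s + 2 * m) * (s + 2 * m + 1) =
        2 * (s * (s + 1) / 2 + m + 2 * (s * m + m ^ 2)) := by
      have : (s + 2 * m) * (s + 2 * m + 1) = s * (s + 1) + 2 * m + 4 * (s * m + m ^ 2) := by ring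
      omega
    rw [h4]
    exact Nat.mul_div_cancel_left _ (by norm_num)
  have h5 : ((-1 : ℝ) ^ κ) ^ (2 * (s * m + m ^ 2)) = 1 := by
    rw [← pow_mul, show κ * (2 * (s * m + m ^ 2)) = 2 * (κ * (s * m + m ^ 2)) by ring, pow_mul]
    norm_num
  have h6 : (-1 : ℝ) ^ (2 * m) = 1 := by
    rw [pow_mul]
    norm_num
  rw [h2, pow_add, pow_add, pow_add, h5, h6]
  ring

/-- exponent -/
def kk (N d : ℕ) : ℕ := (d + N / d - 2) / 4

theorem factor {n d : ℕ} (hd : d ∈ (4 * n + 1).divisors) :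
    d * ((4 * n + 1) / d) = 4 * n + 1 ∧ d % 2 = 1 ∧ ((4 * n + 1) / d) % 4 = d % 4 := by
  have h1 := Nat.dvd_of_mem_divisors hd
  have h2 := Nat.mul_div_cancel' h1
  set e := (4 * n + 1) / d with he
  have h3 : (d * e) % 4 = 1 := by omega
  have h4 : (d % 4) * (e % 4) % 4 = 1 := by
    rw [← Nat.mul_mod]; exact h3
  have hd4 : d % 4 < 4 := Nat.mod_lt _ (by norm_num)
  have he4 : e % 4 < 4 := Nat.mod_lt _ (by norm_num)
  have h5 : (d % 4 = 1 ∧ e % 4 = 1) ∨ (d % 4 = 3 ∧ e % 4 = 3) := by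
    generalize d % 4 = x at *
    generalize e % 4 = y at *
    interval_cases x <;> interval_cases y <;> simp_all
  refine ⟨h2, by omega, by omega⟩

theorem expo {n d : ℕ} (hd : d ∈ (4 * n + 1).divisors) :
    (d + 1) * ((4 * n + 1) / d + 1) / 4 = n + 1 + kk (4 * n + 1) d ∧
    (d - 1) * ((4 * n + 1) / d - 1) / 4 + kk (4 * n + 1) d = n := by
  obtain ⟨h1, h2, h3⟩ := factor hd
  unfold kk
  set e := (4 * n + 1) / d with he
  have hd1 : 1 ≤ d := by omega
  have he1 : 1 ≤ e := by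
    rcases Nat.eq_zero_or_pos e with h | h
    · rw [h, mul_zero] at h1; omega
    · exact h
  have h4 : ∃ k, d + e = 4 * k + 2 := ⟨(d + e - 2) / 4, by omega⟩
  obtain ⟨k, hk⟩ := h4
  have h5 : (d + e - 2) / 4 = k := by omega
  rw [h5]
  constructor
  · have : (d + 1) * (e + 1) = 4 * (n + 1 + k) := by
      have : (d + 1) * (e + 1) = d * e + (d + e) + 1 := by ring
      omega
    rw [this]
    exact Nat.mul_div_cancel_left _ (by norm_num)
  · obtain ⟨d', rfl⟩ : ∃ d', d = d' + 1 := ⟨d - 1, by omega⟩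
    obtain ⟨e', he'⟩ : ∃ e', e = e' + 1 := ⟨e - 1, by omega⟩
    rw [he'] at h1 hk ⊢
    simp only [Nat.add_sub_cancel]
    have h6 : d' * e' + 4 * k = 4 * n := by
      have : (d' + 1) * (e' + 1) = d' * e' + (d' + e') + 1 := by ring
      omega
    omega

theorem par {n d : ℕ} (hd : d ∈ (4 * n + 1).divisors) (hle : d * d ≤ 4 * n + 1) :
    ∃ s m, d = 2 * s + 1 ∧ n = s * (s + 1) + (2 * s + 1) * m := by
  obtain ⟨h1, h2, h3⟩ := factor hd
  set e := (4 * n + 1) / d with he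
  have hde : d ≤ e := by
    by_contra h
    have h4 : e < d := not_le.1 h
    have h5 : d * e < d * d := Nat.mul_lt_mul_of_pos_left h4 (by omega)
    omega
  refine ⟨d / 2, (e - d) / 4, by omega, ?_⟩
  have h6 : d = 2 * (d / 2) + 1 := by omega
  have h7 : e = d + 4 * ((e - d) / 4) := by omega
  set s := d / 2 with hs
  set m := (e - d) / 4 with hm
  rw [h7, h6] at h1
  have h8 : (2 * s + 1) * (2 * s + 1 + 4 * m) = 4 * (s * (s + 1) + (2 * s + 1) * m) + 1 := by ring
  omega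

theorem prod_eq (s m : ℕ) :
    4 * (s * (s + 1) + (2 * s + 1) * m) + 1 = (2 * s + 1) * (2 * s + 1 + 4 * m) := by ring

theorem div1 (s m : ℕ) :
    (4 * (s * (s + 1) + (2 * s + 1) * m) + 1) / (2 * s + 1) = 2 * s + 1 + 4 * m := by
  rw [prod_eq]
  exact Nat.mul_div_cancel_left _ (by omega)

theorem div2 (s m : ℕ) :
    (4 * (s * (s + 1) + (2 * s + 1) * m) + 1) / (2 * s + 1 + 4 * m) = 2 * s + 1 := by
  rw [prod_eq, mul_comm]
  exact Nat.mul_div_cancel_left _ (by omega)

/-- one pair of divisors -/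
theorem value (κ s m : ℕ) (P : ℝ) (N n : ℕ) (hn : n = s * (s + 1) + (2 * s + 1) * m)
    (hN : N = 4 * n + 1) :
    (jacobiSym (-(2 : ℤ) ^ κ) (2 * s + 1) : ℝ) * P ^ kk N (2 * s + 1) +
      (if (2 * s + 1) * (2 * s + 1) = N then 0 else
        (jacobiSym (-(2 : ℤ) ^ κ) (N / (2 * s + 1) : ℕ) : ℝ) * P ^ kk N (N / (2 * s + 1))) =
    (-1) ^ s * ((-1) ^ κ) ^ (s * (s + 1) / 2) *
      (if n = s * (s + 1) then 1 else 1 + ((-1) ^ κ) ^ ((n - s * (s + 1)) / (2 * s + 1))) *
      P ^ (s + (n - s * (s + 1)) / (2 * s + 1)) := by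
  have d1 : N / (2 * s + 1) = 2 * s + 1 + 4 * m := by rw [hN, hn]; exact div1 s m
  have d2 : N / (2 * s + 1 + 4 * m) = 2 * s + 1 := by rw [hN, hn]; exact div2 s m
  have d3 : (n - s * (s + 1)) / (2 * s + 1) = m := by
    rw [hn, Nat.add_sub_cancel_left]
    exact Nat.mul_div_cancel_left _ (by omega)
  have k1 : kk N (2 * s + 1) = s + m := by
    unfold kk
    rw [d1]
    omega
  have k2 : kk N (2 * s + 1 + 4 * m) = s + m := by
    unfold kk
    rw [d2]
    omega
  rw [d1, k1, k2, d3, J_real, J_real']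
  have hmm : n = s * (s + 1) ↔ m = 0 := by
    constructor
    · intro h
      rw [h] at hn
      have : (2 * s + 1) * m = 0 := by omega
      rcases Nat.mul_eq_zero.1 this with h | h
      · omega
      · exact h
    · intro h
      rw [hn, h, mul_zero, add_zero]
  have hmm' : (2 * s + 1) * (2 * s + 1) = N ↔ m = 0 := by
    rw [← hmm, hN]
    have : (2 * s + 1) * (2 * s + 1) = 4 * (s * (s + 1)) + 1 := by ring
    rw [this]
    omega
  by_cases hm : m = 0
  · rw [if_pos (hmm'.2 hm), if_pos (hmm.2 hm)]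
    ring
  · rw [if_neg (fun h => hm (hmm'.1 h)), if_neg (fun h => hm (hmm.1 h))]
    ring

/-- the sum over the divisors with the exponent `kk` -/
theorem main (κ n : ℕ) (P : ℝ) :
    ∑ d ∈ (4 * n + 1).divisors, (jacobiSym (-(2 : ℤ) ^ κ) d : ℝ) * P ^ kk (4 * n + 1) d =
      Cc ((-1) ^ κ) P n := by
  classical
  set N := 4 * n + 1 with hN
  have hN0 : N ≠ 0 := by omega
  set F : ℕ → ℝ := fun d => (jacobiSym (-(2 : ℤ) ^ κ) d : ℝ) * P ^ kk N d with hF
  have r1 : ∑ d ∈ N.divisors.filter (fun d => d * d ≤ N), (if d * d = N then 0 else F (N / d)) =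
      ∑ d ∈ N.divisors.filter (fun d => d * d < N), F (N / d) := by
    rw [Finset.sum_filter, Finset.sum_filter]
    refine Finset.sum_congr rfl fun d _ => ?_
    by_cases h1 : d * d = N
    · rw [if_pos h1.le, if_pos h1, if_neg (by omega)]
    · by_cases h2 : d * d ≤ N
      · rw [if_pos h2, if_neg h1, if_pos (by omega)]
      · rw [if_neg h2, if_neg (by omega)]
  have hmul : ∀ d ∈ N.divisors, d * (N / d) = N ∧ 0 < d ∧ 0 < N / d := by
    intro d hd
    have h1 := Nat.dvd_of_mem_divisors hd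
    have h2 := Nat.mul_div_cancel' h1
    refine ⟨h2, Nat.pos_of_mem_divisors hd, ?_⟩
    rcases Nat.eq_zero_or_pos (N / d) with h | h
    · rw [h, mul_zero] at h2
      omega
    · exact h
  have r2 : ∑ d ∈ N.divisors.filter (fun d => ¬ d * d ≤ N), F d =
      ∑ d ∈ N.divisors.filter (fun d => d * d < N), F (N / d) := by
    refine Finset.sum_nbij' (fun d => N / d) (fun d => N / d) ?_ ?_ ?_ ?_ ?_
    · intro d hd
      rw [Finset.mem_filter] at hd ⊢
      obtain ⟨hd1, hd2⟩ := hd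
      obtain ⟨h1, h2, h3⟩ := hmul d hd1
      refine ⟨Nat.mem_divisors.2 ⟨Nat.div_dvd_of_dvd (Nat.dvd_of_mem_divisors hd1), hN0⟩, ?_⟩
      have h4 : N / d < d := by
        by_contra h
        have h5 : d * d ≤ d * (N / d) := Nat.mul_le_mul_left _ (not_lt.1 h)
        omega
      calc N / d * (N / d) < d * (N / d) := Nat.mul_lt_mul_of_pos_right h4 h3
        _ = N := h1
    · intro d hd
      rw [Finset.mem_filter] at hd ⊢
      obtain ⟨hd1, hd2⟩ := hd
      obtain ⟨h1, h2, h3⟩ := hmul d hd1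
      refine ⟨Nat.mem_divisors.2 ⟨Nat.div_dvd_of_dvd (Nat.dvd_of_mem_divisors hd1), hN0⟩, ?_⟩
      have h4 : d < N / d := by
        by_contra h
        have h5 : d * (N / d) ≤ d * d := Nat.mul_le_mul_left _ (not_lt.1 h)
        omega
      rw [not_le]
      calc N = d * (N / d) := h1.symm
        _ < N / d * (N / d) := Nat.mul_lt_mul_of_pos_right h4 h3
    · intro d hd
      rw [Finset.mem_filter] at hd
      exact Nat.div_div_self (Nat.dvd_of_mem_divisors hd.1) hN0
    · intro d hd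
      rw [Finset.mem_filter] at hd
      exact Nat.div_div_self (Nat.dvd_of_mem_divisors hd.1) hN0
    · intro d hd
      rw [Finset.mem_filter] at hd
      rw [Nat.div_div_self (Nat.dvd_of_mem_divisors hd.1) hN0]
  have s1 : ∑ d ∈ N.divisors, F d = ∑ d ∈ N.divisors.filter (fun d => d * d ≤ N),
      (F d + if d * d = N then 0 else F (N / d)) := by
    rw [Finset.sum_add_distrib, r1, ← r2,
      Finset.sum_filter_add_sum_filter_not N.divisors (fun d => d * d ≤ N) F]
  have s2 : Cc ((-1) ^ κ) P n = ∑ s ∈ (Finset.range (n + 1)).filter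
      (fun s => s * (s + 1) ≤ n ∧ (2 * s + 1) ∣ (n - s * (s + 1))),
      (-1) ^ s * ((-1) ^ κ) ^ (s * (s + 1) / 2) *
      (if n = s * (s + 1) then 1 else 1 + ((-1) ^ κ) ^ ((n - s * (s + 1)) / (2 * s + 1))) *
      P ^ (s + (n - s * (s + 1)) / (2 * s + 1)) := by
    unfold Cc
    rw [Finset.sum_filter]
  show ∑ d ∈ N.divisors, F d = Cc ((-1) ^ κ) P n
  rw [s1, s2]
  refine Finset.sum_nbij' (fun d => d / 2) (fun s => 2 * s + 1) ?_ ?_ ?_ ?_ ?_
  · intro d hd
    rw [Finset.mem_filter] at hd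
    obtain ⟨s, m, h1, h2⟩ := par hd.1 hd.2
    have h3 : d / 2 = s := by omega
    simp only [h3]
    rw [Finset.mem_filter, Finset.mem_range]
    refine ⟨?_, by omega, ?_⟩
    · have h4 : s ≤ s * (s + 1) := Nat.le_mul_of_pos_right _ (by omega)
      have h5 : s * (s + 1) ≤ n := by omega
      omega
    · rw [h2, Nat.add_sub_cancel_left]
      exact Dvd.intro _ rfl
  · intro s hs
    rw [Finset.mem_filter] at hs
    obtain ⟨h1, h2, m, h3⟩ := hs
    have h4 : n = s * (s + 1) + (2 * s + 1) * m := by omega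
    have h5 : N = (2 * s + 1) * (2 * s + 1 + 4 * m) := by
      rw [hN, h4]; exact prod_eq s m
    rw [Finset.mem_filter, Nat.mem_divisors]
    refine ⟨⟨⟨_, h5⟩, hN0⟩, ?_⟩
    rw [h5]
    exact Nat.mul_le_mul_left _ (by omega)
  · intro d hd
    rw [Finset.mem_filter] at hd
    obtain ⟨s, m, h1, h2⟩ := par hd.1 hd.2
    show 2 * (d / 2) + 1 = d
    omega
  · intro s hs
    show (2 * s + 1) / 2 = s
    omega
  · intro d hd
    rw [Finset.mem_filter] at hd
    obtain ⟨s, m, h1, h2⟩ := par hd.1 hd.2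
    have h3 : d / 2 = s := by omega
    simp only [h3]
    rw [h1]
    exact value κ s m P N n h2 hN

theorem t_cdiv : S_cdiv := by
  intro κ n Q hQ
  constructor
  · rw [← main κ n Q, Finset.mul_sum]
    refine Finset.sum_congr rfl fun d hd => ?_
    rw [(expo hd).1, pow_add]
    ring
  · rw [← main κ n Q⁻¹, Finset.mul_sum]
    refine Finset.sum_congr rfl fun d hd => ?_
    have h1 := (expo hd).2
    set k := kk (4 * n + 1) d with hk
    set x := (d - 1) * ((4 * n + 1) / d - 1) / 4 with hx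
    have h2 : Q ^ n * Q⁻¹ ^ k = Q ^ x := by
      rw [← h1, pow_add, inv_pow, mul_assoc, mul_inv_cancel₀ (pow_ne_zero _ hQ), mul_one]
    rw [← h2]
    ring

end Pool.Agent.H177.EX
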